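import Pool.Agent.MP_b29402_an.Mg.IFin

/-! Every translation surface on which weak mixing is typical is weakly illuminated by circles. -/

open MeasureTheory Set

namespace Pool.Agent.Results.MP_b29402_an.Circles

open Pool.Agent.MP_b29402_an

universe u

theorem result {X : Type u} [TopologicalSpace X] [T2Space X] [CompactSpace X] [ConnectedSpace X]
    [MeasurableSpace X] [BorelSpace X] (S : TransSurf X) (μ : Measure X) (hμ : S.IsArea μ)
    (hwm : ∀ᵐ θ ∂(volume.restrict (Ico (0 : ℝ) 1)), WeakMixing μ (S.flow θ)) :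
    (∀ p, p ∉ S.sing → Illum μ (fun θ t => S.flow θ t p)) ∧
      ∀ p ∈ S.sing, (∃ c, S.IsRays p c) ∧ ∀ c, S.IsRays p c → Illum μ c :=
  TransSurf.main S μ hμ hwm

end Pool.Agent.Results.MP_b29402_an.Circles
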